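import Mathlib

/-!
Anti-concentration of elementary symmetric polynomials (MP_7f94de_pr): definitions and the finite
probability framework. `E u n φ s` is the (unnormalised) expectation of `φ (s + t)` when the `n`
elements of `t` are drawn independently with weights `u`.
-/

namespace Pool.Agent.H222Z.ES

open Finset Polynomial

variable {Ω : Type} [Fintype Ω]

/-- One draw with weights `u`. -/
noncomputable def Pw (u : Ω → ℝ) : Module.End ℝ (Multiset Ω → ℝ) where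
  toFun φ := fun s => ∑ ω, u ω * φ (ω ::ₘ s)
  map_add' φ ψ := by
    funext s; simp only [Pi.add_apply, mul_add, Finset.sum_add_distrib]
  map_smul' c φ := by
    funext s; simp only [Pi.smul_apply, smul_eq_mul, RingHom.id_apply, Finset.mul_sum]
    exact Finset.sum_congr rfl fun _ _ => by ring

/-- `n` independent draws with weights `u`, added to the multiset `s`. -/
noncomputable def E (u : Ω → ℝ) (n : ℕ) (φ : Multiset Ω → ℝ) : Multiset Ω → ℝ := (Pw u ^ n) φ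

/-- Indicator of a proposition. -/
noncomputable def ind (p : Prop) : ℝ := by classical exact if p then 1 else 0

/-- The generating polynomial `∏ (1 + y ω X)`; its `k`-th coefficient is `e_k`. -/
noncomputable def Qp {Ω : Type} (y : Ω → ℂ) (s : Multiset Ω) : ℂ[X] :=
  (s.map fun ω => 1 + C (y ω) * X).prod

/-- Truncated dyadic logarithmic kernel: the number of `s ∈ [1, N]` with `‖a - b‖ ≤ 2^{-s}`. -/
noncomputable def kk (N : ℕ) (a b : ℂ) : ℕ :=
  ((Finset.Icc 1 N).filter fun s => ‖a - b‖ ≤ (1 / 2 : ℝ) ^ s).card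

/-- Binomial sum. -/
noncomputable def Bn (α β : ℝ) (n : ℕ) (f : ℕ → ℝ) : ℝ :=
  ∑ j ∈ range (n + 1), (n.choose j : ℝ) * α ^ j * β ^ (n - j) * f j

/-- Finite theorem I (a fixed law with finite support). -/
def FinI : Prop :=
  ∀ (Ω : Type) [Fintype Ω] (w : Ω → ℝ) (y : Ω → ℂ), (∀ ω, 0 ≤ w ω) → ∑ ω, w ω = 1 →
    (∃ a b, 0 < w a ∧ 0 < w b ∧ y a ≠ y b) →
    ∀ η > (0 : ℝ), ∃ c > (0 : ℝ), ∃ γ > (0 : ℝ), ∃ n₀ : ℕ, ∀ n ≥ n₀, ∀ k : ℕ, (k : ℝ) ≤ γ * n →
      E w n (fun s => ind (‖(Qp y s).coeff k‖ < c)) 0 ≤ η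

/-- Finite theorem II (uniform over laws that dominate a spread out law `π`). -/
def FinII : Prop :=
  ∀ η > (0 : ℝ), ∃ φ > (0 : ℝ), ∀ ε > (0 : ℝ), ∀ R > (0 : ℝ), ∀ c₁ > (0 : ℝ), ∀ δ > (0 : ℝ),
    ∀ c > (0 : ℝ), ∃ γ > (0 : ℝ), ∃ n₀ : ℕ,
    ∀ (Ω : Type) [Fintype Ω] (w π : Ω → ℝ) (y : Ω → ℂ), (∀ ω, 0 ≤ π ω) → ∑ ω, w ω = 1 →
      ∑ ω, π ω = 1 → (∀ ω, c₁ * π ω ≤ w ω) → (∀ ω, π ω ≠ 0 → c ≤ ‖y ω‖ ∧ ‖y ω‖ ≤ R) →
      (∀ ζ : ℂ, ∑ ω, π ω * ind (‖y ω - ζ‖ ≤ δ) ≤ φ) →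
      ∀ n ≥ n₀, ∀ k : ℕ, (k : ℝ) ≤ γ * n →
        E w n (fun s => ind (‖(Qp y s).coeff k‖ < 2 * Real.exp (-(ε * n)))) 0 ≤ η

lemma ind_pos {p : Prop} (h : p) : ind p = 1 := by simp [ind, h]
lemma ind_neg {p : Prop} (h : ¬ p) : ind p = 0 := by simp [ind, h]
lemma ind_nonneg (p : Prop) : 0 ≤ ind p := by by_cases h : p <;> simp [ind, h]
lemma ind_le_one (p : Prop) : ind p ≤ 1 := by by_cases h : p <;> simp [ind, h]
lemma ind_mono {p q : Prop} (h : p → q) : ind p ≤ ind q := by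
  by_cases hp : p
  · rw [ind_pos hp, ind_pos (h hp)]
  · rw [ind_neg hp]; exact ind_nonneg _

@[simp] lemma E_zero (u : Ω → ℝ) (φ : Multiset Ω → ℝ) : E u 0 φ = φ := by simp [E]

lemma E_succ (u : Ω → ℝ) (n : ℕ) (φ : Multiset Ω → ℝ) (s : Multiset Ω) :
    E u (n + 1) φ s = ∑ ω, u ω * E u n φ (ω ::ₘ s) := by
  simp only [E, pow_succ', Module.End.mul_apply]; rfl

lemma E_mono {u : Ω → ℝ} (hu : ∀ ω, 0 ≤ u ω) (n : ℕ) {φ ψ : Multiset Ω → ℝ} :
    ∀ {s : Multiset Ω}, (∀ t : Multiset Ω, t.card = n → (∀ ω ∈ t, u ω ≠ 0) → φ (s + t) ≤ ψ (s + t)) →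
      E u n φ s ≤ E u n ψ s := by
  induction n with
  | zero => intro s h; simpa using h 0 rfl (by simp)
  | succ n ih =>
    intro s h
    rw [E_succ, E_succ]
    refine Finset.sum_le_sum fun ω _ => ?_
    by_cases h0 : u ω = 0
    · simp [h0]
    refine mul_le_mul_of_nonneg_left (ih fun t ht hs => ?_) (hu ω)
    have := h (ω ::ₘ t) (by simp [ht]) (by
      intro a ha
      rcases Multiset.mem_cons.1 ha with rfl | ha
      · exact h0
      · exact hs a ha)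
    simpa [Multiset.cons_add, Multiset.add_cons] using this

lemma E_congr {u : Ω → ℝ} (hu : ∀ ω, 0 ≤ u ω) (n : ℕ) {φ ψ : Multiset Ω → ℝ} {s : Multiset Ω}
    (h : ∀ t : Multiset Ω, t.card = n → (∀ ω ∈ t, u ω ≠ 0) → φ (s + t) = ψ (s + t)) :
    E u n φ s = E u n ψ s :=
  le_antisymm (E_mono hu n fun t a b => (h t a b).le) (E_mono hu n fun t a b => (h t a b).ge)

lemma E_const (u : Ω → ℝ) (n : ℕ) (c : ℝ) : ∀ s : Multiset Ω,
    E u n (fun _ => c) s = c * (∑ ω, u ω) ^ n := by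
  induction n with
  | zero => intro s; simp
  | succ n ih =>
    intro s
    rw [E_succ]; simp only [ih]; rw [← Finset.sum_mul]; ring

lemma E_add (u : Ω → ℝ) (n : ℕ) (φ ψ : Multiset Ω → ℝ) (s : Multiset Ω) :
    E u n (fun t => φ t + ψ t) s = E u n φ s + E u n ψ s := by
  have : (fun t => φ t + ψ t) = φ + ψ := rfl
  rw [this]; simp [E]

lemma E_mul (u : Ω → ℝ) (n : ℕ) (c : ℝ) (φ : Multiset Ω → ℝ) (s : Multiset Ω) :
    E u n (fun t => c * φ t) s = c * E u n φ s := by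
  have : (fun t => c * φ t) = c • φ := rfl
  rw [this]; simp [E]

lemma E_sum {ι : Type*} (I : Finset ι) (u : Ω → ℝ) (n : ℕ) (φ : ι → Multiset Ω → ℝ)
    (s : Multiset Ω) : E u n (fun t => ∑ i ∈ I, φ i t) s = ∑ i ∈ I, E u n (φ i) s := by
  have : (fun t => ∑ i ∈ I, φ i t) = ∑ i ∈ I, φ i := by funext t; simp
  rw [this]; simp [E]

lemma E_le_const {u : Ω → ℝ} (hu : ∀ ω, 0 ≤ u ω) (n : ℕ) {φ : Multiset Ω → ℝ} {s : Multiset Ω}
    {c : ℝ} (h : ∀ t : Multiset Ω, t.card = n → (∀ ω ∈ t, u ω ≠ 0) → φ (s + t) ≤ c) :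
    E u n φ s ≤ c * (∑ ω, u ω) ^ n := by
  rw [← E_const u n c s]; exact E_mono hu n h

lemma E_nonneg {u : Ω → ℝ} (hu : ∀ ω, 0 ≤ u ω) (n : ℕ) {φ : Multiset Ω → ℝ}
    (h : ∀ t, 0 ≤ φ t) (s : Multiset Ω) : 0 ≤ E u n φ s := by
  have := E_mono hu n (φ := fun _ => 0) (ψ := φ) (s := s) fun t _ _ => h _
  rwa [E_const, zero_mul] at this

lemma Pw_commute (u v : Ω → ℝ) : Commute (Pw u) (Pw v) := by
  refine LinearMap.ext fun φ => funext fun s => ?_
  change ∑ ω, u ω * ∑ ω', v ω' * φ (ω' ::ₘ ω ::ₘ s) = ∑ ω, v ω * ∑ ω', u ω' * φ (ω' ::ₘ ω ::ₘ s)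
  simp only [Finset.mul_sum]
  rw [Finset.sum_comm]
  refine Finset.sum_congr rfl fun a _ => Finset.sum_congr rfl fun b _ => ?_
  rw [Multiset.cons_swap]; ring

lemma E_comm (u v : Ω → ℝ) (n m : ℕ) (φ : Multiset Ω → ℝ) :
    E u n (E v m φ) = E v m (E u n φ) := by
  simp only [E, ← Module.End.mul_apply]
  rw [((Pw_commute u v).pow_pow n m).eq]

lemma Pw_add (u v : Ω → ℝ) : Pw (u + v) = Pw u + Pw v := by
  refine LinearMap.ext fun φ => funext fun s => ?_
  change ∑ ω, (u ω + v ω) * φ (ω ::ₘ s) = ∑ ω, u ω * φ (ω ::ₘ s) + ∑ ω, v ω * φ (ω ::ₘ s)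
  simp only [add_mul, Finset.sum_add_distrib]

/-- Conditioning on the number of draws of each kind. -/
lemma E_binom (u v : Ω → ℝ) (n : ℕ) (φ : Multiset Ω → ℝ) (s : Multiset Ω) :
    E (u + v) n φ s = ∑ j ∈ range (n + 1), (n.choose j : ℝ) * E v (n - j) (E u j φ) s := by
  simp only [← E_comm u v]
  simp only [E, Pw_add, (Pw_commute u v).add_pow, LinearMap.sum_apply, Finset.sum_apply,
    Module.End.mul_apply, Module.End.natCast_apply, map_nsmul, Pi.smul_apply]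
  simp only [nsmul_eq_mul]

lemma Bn_succ (α β : ℝ) (n : ℕ) (f : ℕ → ℝ) :
    Bn α β (n + 1) f = β * Bn α β n f + α * Bn α β n (fun j => f (j + 1)) := by
  have h := Finset.sum_choose_succ_mul (R := ℝ) (fun i j => α ^ i * β ^ j * f i) n
  simp only [Bn, mul_assoc] at h ⊢
  rw [h, Finset.mul_sum, Finset.mul_sum]
  congr 1
  · refine Finset.sum_congr rfl fun i hi => ?_
    have : n + 1 - i = (n - i) + 1 := by have := Finset.mem_range.1 hi; omega
    rw [this]; ring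
  · exact Finset.sum_congr rfl fun i _ => by ring

lemma Bn_quad (α β : ℝ) (n : ℕ) : ∀ c₀ c₁ c₂ : ℝ,
    Bn α β n (fun j => c₀ + c₁ * (j * (α + β) - n * α) + c₂ * (j * (α + β) - n * α) ^ 2) =
      (c₀ + c₂ * n * α * β) * (α + β) ^ n := by
  induction n with
  | zero => intro c₀ c₁ c₂; simp [Bn]
  | succ n ih =>
    intro c₀ c₁ c₂
    rw [Bn_succ]
    have h1 := ih (c₀ - c₁ * α + c₂ * α ^ 2) (c₁ - 2 * c₂ * α) c₂
    have h2 := ih (c₀ + c₁ * β + c₂ * β ^ 2) (c₁ + 2 * c₂ * β) c₂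
    have e1 : (fun j : ℕ => c₀ + c₁ * (j * (α + β) - ((n + 1 : ℕ) : ℝ) * α) +
        c₂ * (j * (α + β) - ((n + 1 : ℕ) : ℝ) * α) ^ 2) = fun j : ℕ =>
        (c₀ - c₁ * α + c₂ * α ^ 2) + (c₁ - 2 * c₂ * α) * (j * (α + β) - n * α) +
          c₂ * (j * (α + β) - n * α) ^ 2 := by
      funext j; push_cast; ring
    have e2 : (fun j : ℕ => c₀ + c₁ * (((j + 1 : ℕ) : ℝ) * (α + β) - ((n + 1 : ℕ) : ℝ) * α) +
        c₂ * (((j + 1 : ℕ) : ℝ) * (α + β) - ((n + 1 : ℕ) : ℝ) * α) ^ 2) = fun j : ℕ =>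
        (c₀ + c₁ * β + c₂ * β ^ 2) + (c₁ + 2 * c₂ * β) * (j * (α + β) - n * α) +
          c₂ * (j * (α + β) - n * α) ^ 2 := by
      funext j; push_cast; ring
    rw [e1, e2, h1, h2]; push_cast; ring

lemma Bn_mono {α β : ℝ} (hα : 0 ≤ α) (hβ : 0 ≤ β) (n : ℕ) {f g : ℕ → ℝ}
    (h : ∀ j ≤ n, f j ≤ g j) : Bn α β n f ≤ Bn α β n g :=
  Finset.sum_le_sum fun j hj => mul_le_mul_of_nonneg_left
    (h j (Nat.lt_succ_iff.1 (Finset.mem_range.1 hj))) (by positivity)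

lemma Bn_add (α β : ℝ) (n : ℕ) (f g : ℕ → ℝ) :
    Bn α β n (fun j => f j + g j) = Bn α β n f + Bn α β n g := by
  simp only [Bn, mul_add, Finset.sum_add_distrib]

lemma Bn_const (α β : ℝ) (n : ℕ) (c : ℝ) : Bn α β n (fun _ => c) = c * (α + β) ^ n := by
  simpa using Bn_quad α β n c 0 0

/-- Markov for the binomial count with mean `L`. -/
lemma Bn_upper {α β : ℝ} (hα : 0 ≤ α) (hβ : 0 ≤ β) (hab : 0 < α + β) (n : ℕ) {L η : ℝ}
    (hL : n * α = L * (α + β)) (hη : 0 < η) :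
    Bn α β n (fun j => ind (L / η < j)) ≤ η * (α + β) ^ n := by
  have hL0 : 0 ≤ L := by
    by_contra h; push Not at h
    have : 0 ≤ (n : ℝ) * α := by positivity
    nlinarith
  rcases hL0.eq_or_lt with h0 | hpos
  · have h1 := Bn_quad α β n 0 (1 / (α + β)) 0
    have : Bn α β n (fun j => ind (L / η < j)) ≤ Bn α β n (fun j => 0 + 1 / (α + β) *
        (j * (α + β) - n * α) + 0 * (j * (α + β) - n * α) ^ 2) := by
      refine Bn_mono hα hβ n fun j _ => ?_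
      rw [hL, ← h0]
      have : 0 + 1 / (α + β) * (j * (α + β) - 0 * (α + β)) + 0 * (j * (α + β) - 0 * (α + β)) ^ 2
          = j := by field_simp; ring
      rw [this]
      rcases Nat.eq_zero_or_pos j with rfl | hj
      · rw [ind_neg (by simp)]; simp
      · exact (ind_le_one _).trans (by exact_mod_cast hj)
    rw [h1] at this
    have h2 : 0 ≤ η * (α + β) ^ n := by positivity
    linarith
  · have h1 := Bn_quad α β n η (η / (L * (α + β))) 0
    have : Bn α β n (fun j => ind (L / η < j)) ≤ Bn α β n (fun j => η + η / (L * (α + β)) *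
        (j * (α + β) - n * α) + 0 * (j * (α + β) - n * α) ^ 2) := by
      refine Bn_mono hα hβ n fun j _ => ?_
      rw [hL]
      have : η + η / (L * (α + β)) * (j * (α + β) - L * (α + β)) +
          0 * (j * (α + β) - L * (α + β)) ^ 2 = η * j / L := by field_simp; ring
      rw [this]
      by_cases h : L / η < j
      · rw [ind_pos h, le_div_iff₀ hpos]
        rw [div_lt_iff₀ hη] at h; linarith
      · rw [ind_neg h]; positivity
    rw [h1] at this
    simpa using this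

/-- Chebyshev lower tail for the binomial count with mean `L`. -/
lemma Bn_lower {α β : ℝ} (hα : 0 ≤ α) (hβ : 0 ≤ β) (hab : 0 < α + β) (n : ℕ) {L t : ℝ}
    (hL : n * α = L * (α + β)) (ht : 0 < t) :
    Bn α β n (fun j => ind ((j : ℝ) < L / 2 - t)) ≤ 1 / (2 * t) * (α + β) ^ n := by
  have hL0 : 0 ≤ L := by
    by_contra h; push Not at h
    have : 0 ≤ (n : ℝ) * α := by positivity
    nlinarith
  rcases hL0.eq_or_lt with h0 | hpos
  · have : Bn α β n (fun j => ind ((j : ℝ) < L / 2 - t)) ≤ Bn α β n (fun _ => 0) := by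
      refine Bn_mono hα hβ n fun j _ => ?_
      rw [ind_neg]
      have : (0 : ℝ) ≤ j := Nat.cast_nonneg j
      rw [← h0]; linarith
    rw [Bn_const] at this
    have h2 : 0 ≤ 1 / (2 * t) * (α + β) ^ n := by positivity
    linarith
  · have h1 := Bn_quad α β n 0 0 (1 / (2 * L * t * (α + β) ^ 2))
    have : Bn α β n (fun j => ind ((j : ℝ) < L / 2 - t)) ≤ Bn α β n (fun j => 0 + 0 *
        (j * (α + β) - n * α) + 1 / (2 * L * t * (α + β) ^ 2) * (j * (α + β) - n * α) ^ 2) := by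
      refine Bn_mono hα hβ n fun j _ => ?_
      rw [hL]
      have : 0 + 0 * (j * (α + β) - L * (α + β)) + 1 / (2 * L * t * (α + β) ^ 2) *
          (j * (α + β) - L * (α + β)) ^ 2 = (L - j) ^ 2 / (2 * L * t) := by field_simp; ring
      rw [this]
      by_cases h : (j : ℝ) < L / 2 - t
      · rw [ind_pos h, le_div_iff₀ (by positivity)]
        have : L / 2 + t ≤ L - j := by linarith
        nlinarith [sq_nonneg (L / 2 - t)]
      · rw [ind_neg h]; positivity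
    rw [h1] at this
    refine this.trans (mul_le_mul_of_nonneg_right ?_ (by positivity))
    have e : 0 + 1 / (2 * L * t * (α + β) ^ 2) * n * α * β = β / (α + β) * (1 / (2 * t)) := by
      rw [zero_add, mul_assoc (1 / _), hL]; field_simp
    rw [e]
    have : β / (α + β) ≤ 1 := by rw [div_le_one hab]; linarith
    have h3 : 0 ≤ 1 / (2 * t) := by positivity
    nlinarith

lemma kk_le (N : ℕ) (a b : ℂ) : kk N a b ≤ N :=
  (Finset.card_filter_le _ _).trans (by simp)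

lemma kk_comm (N : ℕ) (a b : ℂ) : kk N a b = kk N b a := by
  simp only [kk, norm_sub_rev]

lemma kk_deep {N : ℕ} {a b : ℂ} (h : ‖a - b‖ ≤ (1 / 2 : ℝ) ^ N) : kk N a b = N := by
  rw [kk, Finset.filter_true_of_mem]
  · simp
  · intro s hs
    exact h.trans (pow_le_pow_of_le_one (by norm_num) (by norm_num) (Finset.mem_Icc.1 hs).2)

lemma kk_shallow {N : ℕ} {a b : ℂ} (h : (1 / 2 : ℝ) ^ N < ‖a - b‖) :
    (1 / 2 : ℝ) ^ (kk N a b + 1) ≤ min 1 ‖a - b‖ := by
  refine le_min (pow_le_one₀ (by norm_num) (by norm_num)) ?_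
  by_contra hc
  push Not at hc
  have hN : kk N a b + 1 ≤ N := by
    by_contra h2
    have : (1 / 2 : ℝ) ^ (kk N a b + 1) ≤ (1 / 2) ^ N :=
      pow_le_pow_of_le_one (by norm_num) (by norm_num) (by omega)
    linarith
  have : Finset.Icc 1 (kk N a b + 1) ⊆
      (Finset.Icc 1 N).filter fun s => ‖a - b‖ ≤ (1 / 2 : ℝ) ^ s := by
    intro s hs
    rw [Finset.mem_Icc] at hs
    refine Finset.mem_filter.2 ⟨Finset.mem_Icc.2 ⟨hs.1, by omega⟩, hc.le.trans ?_⟩
    exact pow_le_pow_of_le_one (by norm_num) (by norm_num) hs.2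
  have h3 := Finset.card_le_card this
  rw [Nat.card_Icc] at h3
  change _ ≤ kk N a b at h3
  omega

end Pool.Agent.H222Z.ES
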