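import Pool.Agent.H222Z.ES.Defs

/-! Statements of the intermediate lemmas (each is proved in its own file). -/

namespace Pool.Agent.H222Z.ES

open Finset Polynomial

open Classical in
/-- Gap lemma: a product of linear factors whose roots are well approximated by few nodes, times a
polynomial `q` of small degree, has no long run of tiny coefficients. -/
def GapStm : Prop :=
  ∀ (In Out NI NO : Multiset ℂ) (q : ℂ[X]) (n k lo D : ℕ) (θ ε₀ B : ℝ),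
    (∀ b ∈ In, ‖b‖ ≤ 1) → (∀ a ∈ Out, ‖a‖ ≤ 1) → (∀ w ∈ NI, ‖w‖ ≤ 1) → (∀ w ∈ NO, ‖w‖ ≤ 1) →
    In.card + Out.card ≤ n → 0 < θ → θ ≤ 1 / 2 →
    B = ((n : ℝ) + 1) * 2 ^ k / (θ ^ k * (1 - θ) ^ n) →
    q.natDegree < D → Out.card + D ≤ k + 1 →
    (lo = 0 ∨ (lo ≤ Out.card + (In.filter fun b => ‖b‖ = 1).card ∧
      NI.card + NO.card + D + lo ≤ k ∧
      (∀ b ∈ In, (NI.map fun w => ‖b - w‖).prod ≤ ε₀) ∧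
      (∀ a ∈ Out, (NO.map fun w => ‖a - w‖).prod ≤ ε₀) ∧ ε₀ * 2 ^ (50 * k) * B ^ 3 ≤ 1)) →
    ∃ j, lo ≤ j ∧ j ≤ k ∧ q.mahlerMeasure ≤ 2 ^ (50 * k) * B ^ 2 *
      ‖((In.map fun b => 1 + C b * X).prod * (Out.map fun a => C a + X).prod * q).coeff j‖

/-- Class lemma: constrained equilibrium measure and the nodes built from it. -/
def ClassStm : Prop :=
  ∀ (Ω : Type) [Fintype Ω] (w : Ω → ℝ) (z : Ω → ℂ) (n N : ℕ), (∀ ω, 0 ≤ w ω) →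
    (∀ ω, w ω ≠ 0 → ‖z ω‖ ≤ 1 / 2) → 1 ≤ N →
    ∃ (u : Ω → ℝ) (L φ V : ℝ) (Nd : Multiset ℂ), (∀ ω, 0 ≤ u ω ∧ u ω ≤ w ω) ∧ 0 ≤ L ∧
      L ≤ 21 * N ∧ n * ∑ ω, u ω = L * ∑ ω, w ω ∧ 0 ≤ φ ∧ 0 ≤ V ∧ φ * L ≤ 21 ∧ V * L ≤ 21 * N ∧
      (∀ ζ : ℂ, ∑ ω, u ω * ind (‖z ω - ζ‖ ≤ (1 / 2 : ℝ) ^ N) ≤ φ * ∑ ω, u ω) ∧
      (∀ ζ : ℂ, ∑ ω, u ω * (kk N (z ω) ζ : ℝ) ≤ V * ∑ ω, u ω) ∧
      (Nd.card : ℝ) ≤ L / 4 ∧ (∀ x ∈ Nd, ‖x‖ ≤ 1 / 2) ∧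
      (0 < n → L ≤ N → ∀ ω, u ω ≠ w ω →
        (Nd.map fun x => ‖z ω - x‖).prod ≤ 8 ^ Nd.card * (1 / 2 : ℝ) ^ N)

/-- Every vector of `K` has a window entry of relative size at least `σ`. -/
def Good {V : Type} [AddCommGroup V] [Module ℂ V] (nq : V → ℝ) (A : V →ₗ[ℂ] (ℕ → ℂ))
    (K : Submodule ℂ V) (a : ℕ) (σ : ℝ) : Prop :=
  ∀ q ∈ K, ∃ i < a, σ * nq q ≤ ‖A q i‖

/-- Stage lemma: random steps `v ↦ (v (i+1) + z v i)_i` keep a large subspace of windows large. -/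
def StageStm : Prop :=
  ∀ (Ω : Type) [Fintype Ω] (V : Type) [AddCommGroup V] [Module ℂ V] [FiniteDimensional ℂ V]
    (nq : V → ℝ) (u : Ω → ℝ) (z : Ω → ℂ) (N D d₁ a Θ : ℕ) (φ Vh σ : ℝ) (g : ℕ → ℕ → ℝ)
    (A : Multiset Ω → V →ₗ[ℂ] (ℕ → ℂ)),
    (∀ q, 0 ≤ nq q) → (∀ ω, 0 ≤ u ω) → (∀ ω, u ω ≠ 0 → ‖z ω‖ ≤ 1 / 2) → 0 ≤ φ → 0 ≤ Vh →
    0 ≤ σ → 0 < Θ → Module.finrank ℂ V ≤ D → D ≤ a → 1 ≤ a →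
    (∀ ζ : ℂ, ∑ ω, u ω * ind (‖z ω - ζ‖ ≤ (1 / 2 : ℝ) ^ N) ≤ φ * ∑ ω, u ω) →
    (∀ ζ : ℂ, ∑ ω, u ω * (kk N (z ω) ζ : ℝ) ≤ Vh * ∑ ω, u ω) →
    (∀ s ω q i, u ω ≠ 0 → A (ω ::ₘ s) q i = A s q (i + 1) + z ω * A s q i) →
    (∀ L d, 0 ≤ g L d) → (∀ L d d', d ≤ d' → g L d' ≤ g L d) → (∀ d < d₁, 1 ≤ g 0 d) →
    (∀ L d, g L d + d * φ * (g L (d - 1) - g L d) ≤ g (L + 1) d) →
    ∀ (L : ℕ) (s : Multiset Ω) (K : Submodule ℂ V), Good nq (A s) K (a + L) σ →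
      E u L (fun s' => ind (¬ ∃ K' ≤ K, d₁ ≤ Module.finrank ℂ K' ∧
          Good nq (A s') K' a (σ * (1 / 2) ^ Θ))) s ≤
        (g L (Module.finrank ℂ K) + L * (D * Vh + 4 * D + 2) / Θ) * (∑ ω, u ω) ^ L

end Pool.Agent.H222Z.ES
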